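import Pool.Agent.H69N.KB.Final

/-!
# Kolmogorov actions: all exponents of degree one, unrestricted boxes

A group `G` acts by measure preserving bijections `Φ g` of a probability space `(X, μ)`,
`ℓ : G → ℝ` is a homomorphism and `𝒜` is a sub-`σ`-algebra such that

* `(Φ g)⁻¹ 𝒜 ⊆ 𝒜` whenever `ℓ g ≤ 0`,
* the `(Φ g)⁻¹ 𝒜`, `g ∈ G`, generate all measurable sets modulo `μ`,
* the intersection of the `(Φ g)⁻¹ 𝒜`, `g ∈ G`, contains only sets of measure `0` or `1`,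

that is, a `K`-action with past `𝒜` in the direction `ℓ`. `G` need not be commutative or nilpotent.
-/

set_option autoImplicit false

open Filter Topology MeasureTheory
open scoped ENNReal

namespace Pool.Agent.Results.MP_f720ae_an.KolmogorovActions

universe v w

/-- The average of `a` over the box `[0, M_1) × ⋯ × [0, M_k)`. -/
noncomputable def boxAvg {k : ℕ} (M : Fin k → ℕ) (a : (Fin k → ℕ) → ℂ) : ℂ :=
  (∏ l, (M l : ℂ))⁻¹ * ∑ m ∈ Fintype.piFinset (fun l => Finset.range (M l)), a m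

/-- The word `w u_1^(m_1) ⋯ u_k^(m_k)`. -/
def word {G : Type v} [Group G] {k : ℕ} (w : G) (u : Fin k → G) (m : Fin k → ℕ) : G :=
  w * (List.ofFn fun l => u l ^ m l).prod

/-- `T^z = T_1^(z_1) ⋯ T_d^(z_d)`. -/
def pw {d : ℕ} {X : Type w} (T : Fin d → Equiv.Perm X) (z : Fin d → ℤ) : Equiv.Perm X :=
  (List.ofFn fun i => T i ^ z i).prod

open Classical in
/-- `∏_(j : u_j = 1) f_j (w_j x) · ∏_c ∫ ∏_(j : u_j = c) f_j (w_j y) dμ(y)`, where `c` runs over the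
distinct vectors `u_j = (u_j1, …, u_jk) ≠ (1, …, 1)`. -/
noncomputable def limitValue {X : Type w} [MeasurableSpace X] {G : Type v} [Group G] {n k : ℕ}
    (μ : Measure X) (Φ : G →* Equiv.Perm X) (w : Fin n → G) (u : Fin n → Fin k → G)
    (f : Fin n → X → ℂ) (x : X) : ℂ :=
  (∏ j ∈ Finset.univ.filter (fun j => u j = 1), f j (Φ (w j) x)) *
    ∏ c ∈ (Finset.univ.image u).erase 1,
      ∫ y, ∏ j ∈ Finset.univ.filter (fun j => u j = c), f j (Φ (w j) y) ∂μ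

/-- Let `f_1, …, f_n ∈ L^∞(X)`.

(1) Let `G` act as a `K`-action in the direction `ℓ`, and let `w_j, u_jl ∈ G` (`1 ≤ j ≤ n`,
`1 ≤ l ≤ k`) be such that `ℓ (u_jl) = 0` only if `u_jl = 1`, and `ℓ (u_il) = ℓ (u_jl)` for all `l`
only if `u_il = u_jl` for all `l`. Then for almost every `x` the averages over the boxes
`[0, M_1) × ⋯ × [0, M_k)` of `∏_j f_j (w_j u_j1^(m_1) ⋯ u_jk^(m_k) x)` tend to
`∏_(j : u_j = 1) f_j (w_j x) · ∏_c ∫ ∏_(j : u_j = c) f_j (w_j y) dμ(y)` as `min M_l → ∞`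
(unrestricted boxes), with `c` running over the distinct `u_j ≠ 1`.

(2) The same in the notation of the problem: let `T_1, …, T_d` commute and form a `K`-action of
`ℤ^d` in the direction of `a ∈ ℝ^d`, let all `P_ij ∈ ℤ[m_1, …, m_k]` have degree at most one and let
`b_jl ∈ ℤ^d` be the vector of the coefficients of `m_l` in `P_1j, …, P_dj`. Suppose that
`a · b_jl = 0` only if `b_jl = 0`, and that `a · b_jl = a · b_j'l` for all `l` only if
`b_jl = b_j'l` for all `l` (both are automatic when `a_1, …, a_d` are linearly independent over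
`ℚ`, for example when `d = 1` and `a ≠ 0`). Then the averages of
`∏_j f_j (T_1^(P_1j(m)) ⋯ T_d^(P_dj(m)) x)` converge almost everywhere as `min M_l → ∞`. -/
theorem result (n k : ℕ) {X : Type w} (𝒜 : MeasurableSpace X) [mX : MeasurableSpace X]
    (μ : Measure X) [IsProbabilityMeasure μ] (h𝒜 : 𝒜 ≤ mX)
    (f : Fin n → X → ℂ) (hf : ∀ j, MemLp (f j) ∞ μ) :
    (∀ (G : Type v) [Group G] (Φ : G →* Equiv.Perm X) (ℓ : G → ℝ)
      (w : Fin n → G) (u : Fin n → Fin k → G),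
      (∀ g, MeasurePreserving (Φ g) μ μ) → (∀ g h, ℓ (g * h) = ℓ g + ℓ h) →
      (∀ g, ℓ g ≤ 0 → 𝒜.comap (Φ g : X → X) ≤ 𝒜) →
      (∀ B, MeasurableSet[mX] B →
        ∃ B', MeasurableSet[⨆ g, 𝒜.comap (Φ g : X → X)] B' ∧ B =ᵐ[μ] B') →
      (∀ B, (∀ g, MeasurableSet[𝒜.comap (Φ g : X → X)] B) → μ B = 0 ∨ μ B = 1) →
      (∀ j l, ℓ (u j l) = 0 → u j l = 1) →
      (∀ i j, (∀ l, ℓ (u i l) = ℓ (u j l)) → u i = u j) →
      ∀ᵐ x ∂μ, Tendsto (fun M => boxAvg M fun m => ∏ j, f j (Φ (word (w j) (u j) m) x)) atTop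
        (𝓝 (limitValue μ Φ w u f x))) ∧
    (∀ (d : ℕ) (T : Fin d → Equiv.Perm X), (∀ i, Measurable (T i).symm) →
      (∀ i, MeasurePreserving (T i) μ μ) → (∀ i j, Commute (T i) (T j)) → ∀ a : Fin d → ℝ,
      (∀ z : Fin d → ℤ, ∑ i, a i * z i ≤ 0 → 𝒜.comap (pw T z) ≤ 𝒜) →
      (∀ B, MeasurableSet[mX] B →
        ∃ B', MeasurableSet[⨆ z, 𝒜.comap (pw T z)] B' ∧ B =ᵐ[μ] B') →
      (∀ B, (∀ z, MeasurableSet[𝒜.comap (pw T z)] B) → μ B = 0 ∨ μ B = 1) →
      ∀ P : Fin d → Fin n → MvPolynomial (Fin k) ℤ, (∀ i j, (P i j).totalDegree ≤ 1) →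
      (∀ j l, ∑ i, a i * (P i j).coeff (Finsupp.single l 1) = 0 →
        ∀ i, (P i j).coeff (Finsupp.single l 1) = 0) →
      (∀ j j', (∀ l, ∑ i, a i * (P i j).coeff (Finsupp.single l 1) =
          ∑ i, a i * (P i j').coeff (Finsupp.single l 1)) →
        ∀ i l, (P i j).coeff (Finsupp.single l 1) = (P i j').coeff (Finsupp.single l 1)) →
      ∀ᵐ x ∂μ, ∃ L : ℂ, Tendsto (fun M => boxAvg M fun m => ∏ j, f j
        (pw T (fun i => MvPolynomial.eval (fun l => ((m l : ℕ) : ℤ)) (P i j)) x)) atTop (𝓝 L)) := by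
  refine ⟨?_, ?_⟩
  · intro G _ Φ ℓ w u hΦ hℓ hmono hgen htail hu hne
    refine Pool.Agent.H69N.KB.k_memLp (Pool.Agent.H69N.KB.kext_of_trivial hΦ hℓ h𝒜 hmono hgen
      htail) w u hu hne hf
  · intro d T hTm hT hc a hmono hgen htail P hP h0 h1
    exact Pool.Agent.H69N.KB.comm_affine hTm hT hc a h𝒜 hmono hgen htail P hP h0 h1 hf

end Pool.Agent.Results.MP_f720ae_an.KolmogorovActions
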