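import Pool.Agent.H69N.KB.Final

/-!
# The base of a Kolmogorov extension is characteristic for averages over unrestricted boxes

A group `G` acts by measure preserving bijections `Φ g` of a probability space `(X, μ)` and
`ℓ : G → ℝ` is a homomorphism. `𝒴 ⊆ 𝒜` are sub-`σ`-algebras, `𝒴` is invariant, and

* `(Φ g)⁻¹ 𝒜 ⊆ 𝒜` whenever `ℓ g ≤ 0`,
* the `(Φ g)⁻¹ 𝒜`, `g ∈ G`, generate all measurable sets modulo `μ`,
* the intersection of the `(Φ g)⁻¹ 𝒜`, `g ∈ G`, is contained in `𝒴` modulo `μ`,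

that is, the action is a Kolmogorov extension of its factor `𝒴`. Nothing is assumed about the factor
`𝒴`. `G` need not be commutative or nilpotent. For commuting `T_1, …, T_d` and exponents `P_ij` of
degree at most one, `T_1^(P_1j(m)) ⋯ T_d^(P_dj(m))` is a word `w_j u_j1^(m_1) ⋯ u_jk^(m_k)`.
-/

set_option autoImplicit false

open Filter Topology MeasureTheory
open scoped ENNReal

namespace Pool.Agent.Results.MP_f720ae_an.KolmogorovExtensions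

universe v w

/-- The average of `a` over the box `[0, M_1) × ⋯ × [0, M_k)`. -/
noncomputable def boxAvg {k : ℕ} (M : Fin k → ℕ) (a : (Fin k → ℕ) → ℂ) : ℂ :=
  (∏ l, (M l : ℂ))⁻¹ * ∑ m ∈ Fintype.piFinset (fun l => Finset.range (M l)), a m

/-- The word `w u_1^(m_1) ⋯ u_k^(m_k)`. -/
def word {G : Type v} [Group G] {k : ℕ} (w : G) (u : Fin k → G) (m : Fin k → ℕ) : G :=
  w * (List.ofFn fun l => u l ^ m l).prod

/-- Let `X` be a Kolmogorov extension of its factor `𝒴` in the direction of the homomorphism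
`ℓ : G → ℝ`, let `w_j, u_jl ∈ G` (`1 ≤ j ≤ n`, `1 ≤ l ≤ k`) be such that `ℓ (u_jl) ≠ 0` for all
`j, l` and the vectors `(ℓ (u_jl))_l`, `1 ≤ j ≤ n`, are distinct, and let `f_j ∈ L^∞(X)`. Then for
almost every `x` the averages over the boxes `[0, M_1) × ⋯ × [0, M_k)` of
`∏_j f_j (w_j u_j1^(m_1) ⋯ u_jk^(m_k) x)` and of `∏_j E(f_j | 𝒴) (w_j u_j1^(m_1) ⋯ u_jk^(m_k) x)`
have difference tending to zero as `min M_l → ∞` (unrestricted boxes). -/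
theorem result (n k : ℕ) (hk : 0 < k) {X : Type w} {G : Type v} [Group G]
    (𝒜 𝒴 : MeasurableSpace X) [mX : MeasurableSpace X] (μ : Measure X) [IsProbabilityMeasure μ]
    (Φ : G →* Equiv.Perm X) (hΦ : ∀ g, MeasurePreserving (Φ g) μ μ)
    (ℓ : G → ℝ) (hℓ : ∀ g h, ℓ (g * h) = ℓ g + ℓ h)
    (h𝒜 : 𝒜 ≤ mX) (h𝒴 : 𝒴 ≤ 𝒜) (hinv : ∀ g, Measurable[𝒴, 𝒴] (Φ g : X → X))
    (hmono : ∀ g, ℓ g ≤ 0 → 𝒜.comap (Φ g : X → X) ≤ 𝒜)
    (hgen : ∀ B, MeasurableSet[mX] B →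
      ∃ B', MeasurableSet[⨆ g, 𝒜.comap (Φ g : X → X)] B' ∧ B =ᵐ[μ] B')
    (htail : ∀ B, (∀ g, MeasurableSet[𝒜.comap (Φ g : X → X)] B) →
      ∃ B', MeasurableSet[𝒴] B' ∧ B =ᵐ[μ] B')
    (w : Fin n → G) (u : Fin n → Fin k → G) (hu : ∀ j l, ℓ (u j l) ≠ 0)
    (hne : ∀ i j, i ≠ j → ∃ l, ℓ (u i l) ≠ ℓ (u j l))
    (f : Fin n → X → ℂ) (hf : ∀ j, MemLp (f j) ∞ μ) :
    ∀ᵐ x ∂μ, Tendsto (fun M => boxAvg M fun m => (∏ j, f j (Φ (word (w j) (u j) m) x) -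
      ∏ j, (μ[f j | 𝒴]) (Φ (word (w j) (u j) m) x))) atTop (𝓝 0) :=
  Pool.Agent.H69N.KB.char_memLp hk ⟨hΦ, ⟨hℓ, h𝒜, hmono⟩, ⟨h𝒴, hinv⟩, hgen, htail⟩ w u hu hne hf

end Pool.Agent.Results.MP_f720ae_an.KolmogorovExtensions
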