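import Pool.Agent.H69N.KP.FinalP

/-!
# Kolmogorov actions, polynomial exponents, unrestricted boxes

A group `G` (commutative, nilpotent, or any other) acts by measure preserving bijections `Φ g` of a
probability space `(X, μ)`, `ℓ : G → ℝ` is a homomorphism and `𝒜` is a sub-`σ`-algebra such that

* `(Φ g)⁻¹ 𝒜 ⊆ 𝒜` whenever `ℓ g ≤ 0`,
* the `(Φ g)⁻¹ 𝒜`, `g ∈ G`, generate all measurable sets modulo `μ`,
* the sets which belong to all of the `(Φ g)⁻¹ 𝒜`, `g ∈ G`, have measure `0` or `1`,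

that is, the action is a Kolmogorov action in the direction `ℓ`, with past `𝒜`. The averages are
those of the Furstenberg-Bergelson-Leibman conjecture, with integer polynomials `P_ij` of any degree
in `k` variables and unrestricted boxes.
-/

set_option autoImplicit false

open Filter Topology MeasureTheory
open scoped ENNReal

namespace Pool.Agent.Results.MP_f720ae_an.PolynomialActions

universe v w

/-- The average of `a` over the box `[0, M_1) × ⋯ × [0, M_k)`. -/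
noncomputable def boxAvg {k : ℕ} (M : Fin k → ℕ) (a : (Fin k → ℕ) → ℂ) : ℂ :=
  (∏ l, (M l : ℂ))⁻¹ * ∑ m ∈ Fintype.piFinset (fun l => Finset.range (M l)), a m

/-- The group element `T_1^(P_1(m)) ⋯ T_d^(P_d(m))`. -/
noncomputable def word {G : Type v} [Group G] {d k : ℕ} (T : Fin d → G) (P : Fin d → MvPolynomial (Fin k) ℤ)
    (m : Fin k → ℕ) : G :=
  (List.ofFn fun i => T i ^ (MvPolynomial.eval (fun l => ((m l : ℕ) : ℤ)) (P i))).prod

/-- The real polynomial `a_1 P_1 + ⋯ + a_d P_d`. -/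
noncomputable def level {d k : ℕ} (a : Fin d → ℝ) (P : Fin d → MvPolynomial (Fin k) ℤ) :
    MvPolynomial (Fin k) ℝ :=
  ∑ i, MvPolynomial.C (a i) * MvPolynomial.map (Int.castRingHom ℝ) (P i)

/-- `F` has finite memory: it is bounded and measurable, it is measurable with respect to some
`(Φ r)⁻¹ 𝒜`, and its conditional expectation on some `(Φ s)⁻¹ 𝒜` is constant. -/
def FiniteMemory {X : Type w} {G : Type v} [Group G] (𝒜 : MeasurableSpace X)
    [mX : MeasurableSpace X] (μ : Measure X) (Φ : G →* Equiv.Perm X) (F : X → ℂ) : Prop :=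
  (Measurable[mX] F ∧ ∃ C : ℝ, ∀ x, ‖F x‖ ≤ C) ∧
    (∃ r : G, Measurable[𝒜.comap (Φ r : X → X)] F) ∧
    ∃ s : G, μ[F | 𝒜.comap (Φ s : X → X)] =ᵐ[μ] fun _ => ∫ x, F x ∂μ

/-- `f` lies between functions with finite memory: for every `ε > 0` there are a complex function
`F` and a real function `u` with finite memory such that `|f - F| ≤ u` almost everywhere and
`∫ u ≤ ε`. -/
def Regular {X : Type w} {G : Type v} [Group G] (𝒜 : MeasurableSpace X)
    [MeasurableSpace X] (μ : Measure X) (Φ : G →* Equiv.Perm X) (f : X → ℂ) : Prop :=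
  ∀ ε : ℝ, 0 < ε → ∃ (F : X → ℂ) (u : X → ℝ), FiniteMemory 𝒜 μ Φ F ∧
    FiniteMemory 𝒜 μ Φ (fun x => (u x : ℂ)) ∧ (∀ᵐ x ∂μ, ‖f x - F x‖ ≤ u x) ∧ ∫ x, u x ∂μ ≤ ε

/-- The averages of every bounded measurable function along the maps `S m` converge almost
everywhere as all sides of the box tend to infinity. -/
def SingleAveragesConverge {k : ℕ} {X : Type w} [MeasurableSpace X] (μ : Measure X)
    (S : (Fin k → ℕ) → X → X) : Prop :=
  ∀ g : X → ℂ, Measurable g → (∃ C : ℝ, ∀ x, ‖g x‖ ≤ C) →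
    ∀ᵐ x ∂μ, ∃ L : ℂ, Tendsto (fun M => boxAvg M fun m => g (S m x)) atTop (𝓝 L)

/-- Let `G` act as a Kolmogorov action in the direction `ℓ : G → ℝ`, let `T_1, …, T_d ∈ G`, let
`P_ij ∈ ℤ[m_1, …, m_k]` (`1 ≤ i ≤ d`, `1 ≤ j ≤ n`), and put
`Λ_j = ∑_i ℓ(T_i) P_ij ∈ ℝ[m_1, …, m_k]`. Suppose that no `Λ_j` and no `Λ_i - Λ_j` (`i ≠ j`) is
constant, and that none of `P_1j, …, P_dj` depends on a variable on which `Λ_j` does not depend.
Let `f_j ∈ L^∞(X)`, and suppose for each `j` that `f_j` is regular or that the averages of single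
functions along `S_j(m) = T_1^(P_1j(m)) ⋯ T_d^(P_dj(m))` converge almost everywhere. Then for almost
every `x` the averages over the boxes `[0, M_1) × ⋯ × [0, M_k)` of `∏_j f_j (S_j(m) x)` tend to
`∏_j ∫ f_j dμ` as `min M_l → ∞` (unrestricted boxes). -/
theorem result (n d k : ℕ) {X : Type w} {G : Type v} [Group G]
    (𝒜 : MeasurableSpace X) [mX : MeasurableSpace X] (μ : Measure X) [IsProbabilityMeasure μ]
    (Φ : G →* Equiv.Perm X) (hΦ : ∀ g, MeasurePreserving (Φ g) μ μ)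
    (ℓ : G → ℝ) (hℓ : ∀ g h, ℓ (g * h) = ℓ g + ℓ h) (h𝒜 : 𝒜 ≤ mX)
    (hmono : ∀ g, ℓ g ≤ 0 → 𝒜.comap (Φ g : X → X) ≤ 𝒜)
    (hgen : ∀ B, MeasurableSet[mX] B →
      ∃ B', MeasurableSet[⨆ g, 𝒜.comap (Φ g : X → X)] B' ∧ B =ᵐ[μ] B')
    (htail : ∀ B, (∀ g, MeasurableSet[𝒜.comap (Φ g : X → X)] B) → μ B = 0 ∨ μ B = 1)
    (T : Fin d → G) (P : Fin d → Fin n → MvPolynomial (Fin k) ℤ)
    (hdep : ∀ j l, (level (fun i => ℓ (T i)) fun i => P i j).degreeOf l = 0 →
      ∀ i, (P i j).degreeOf l = 0)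
    (hnc : ∀ j, (level (fun i => ℓ (T i)) fun i => P i j).totalDegree ≠ 0)
    (hne : ∀ i j, i ≠ j → (level (fun r => ℓ (T r)) (fun r => P r i) -
      level (fun r => ℓ (T r)) (fun r => P r j)).totalDegree ≠ 0)
    (f : Fin n → X → ℂ) (hf : ∀ j, MemLp (f j) ∞ μ)
    (hreg : ∀ j, Regular 𝒜 μ Φ (f j) ∨
      SingleAveragesConverge μ fun m => (Φ (word T (fun i => P i j) m) : X → X)) :
    ∀ᵐ x ∂μ, Tendsto (fun M => boxAvg M fun m => ∏ j, f j (Φ (word T (fun i => P i j) m) x))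
      atTop (𝓝 (∏ j, ∫ x, f j x ∂μ)) := by
  refine Pool.Agent.H69N.KP.act_poly
    (Pool.Agent.H69N.KB.kext_of_trivial hΦ hℓ h𝒜 hmono hgen htail) T P hdep hnc hne hf
    fun j => (hreg j).imp (fun h ε hε => ?_) fun h => Pool.Agent.H69N.KP.good1_of h
  obtain ⟨F, u, ⟨h1, h2, s, h3⟩, ⟨h4, h5, s', h6⟩, h7, h8⟩ := h ε hε
  refine ⟨F, u, ⟨h1, h2, s, ?_⟩, ⟨h4, h5, s', ?_⟩, h7, h8⟩
  · rw [condExp_bot]
    exact h3
  · rw [condExp_bot]
    exact h6

end Pool.Agent.Results.MP_f720ae_an.PolynomialActions
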