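import Pool.Agent.H69N.KP.FinalP

/-!
# The base of a Kolmogorov extension is characteristic for polynomial averages over boxes

A group `G` (commutative, nilpotent, or any other) acts by measure preserving bijections `Φ g` of a
probability space `(X, μ)` and `ℓ : G → ℝ` is a homomorphism. `𝒴 ⊆ 𝒜` are sub-`σ`-algebras, `𝒴` is
invariant, and

* `(Φ g)⁻¹ 𝒜 ⊆ 𝒜` whenever `ℓ g ≤ 0`,
* the `(Φ g)⁻¹ 𝒜`, `g ∈ G`, generate all measurable sets modulo `μ`,
* the intersection of the `(Φ g)⁻¹ 𝒜`, `g ∈ G`, is contained in `𝒴` modulo `μ`,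

that is, the action is a Kolmogorov extension of its factor `𝒴`. Nothing is assumed about the factor
`𝒴`. The averages are those of the Furstenberg-Bergelson-Leibman conjecture, with integer
polynomials `P_ij` of any degree in `k` variables and unrestricted boxes.
-/

set_option autoImplicit false

open Filter Topology MeasureTheory
open scoped ENNReal

namespace Pool.Agent.Results.MP_f720ae_an.PolynomialExtensions

universe v w

/-- The average of `a` over the box `[0, M_1) × ⋯ × [0, M_k)`. -/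
noncomputable def boxAvg {k : ℕ} (M : Fin k → ℕ) (a : (Fin k → ℕ) → ℂ) : ℂ :=
  (∏ l, (M l : ℂ))⁻¹ * ∑ m ∈ Fintype.piFinset (fun l => Finset.range (M l)), a m

/-- The group element `T_1^(P_1(m)) ⋯ T_d^(P_d(m))`. -/
noncomputable def word {G : Type v} [Group G] {d k : ℕ} (T : Fin d → G) (P : Fin d → MvPolynomial (Fin k) ℤ)
    (m : Fin k → ℕ) : G :=
  (List.ofFn fun i => T i ^ (MvPolynomial.eval (fun l => ((m l : ℕ) : ℤ)) (P i))).prod

/-- The real polynomial `a_1 P_1 + ⋯ + a_d P_d`. -/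
noncomputable def level {d k : ℕ} (a : Fin d → ℝ) (P : Fin d → MvPolynomial (Fin k) ℤ) :
    MvPolynomial (Fin k) ℝ :=
  ∑ i, MvPolynomial.C (a i) * MvPolynomial.map (Int.castRingHom ℝ) (P i)

/-- `F` has finite memory relative to `𝒴`: it is bounded and measurable, it is measurable with
respect to some `(Φ r)⁻¹ 𝒜`, and its conditional expectation on some `(Φ s)⁻¹ 𝒜` is the conditional
expectation on `𝒴`. -/
def FiniteMemory {X : Type w} {G : Type v} [Group G] (𝒜 𝒴 : MeasurableSpace X)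
    [mX : MeasurableSpace X] (μ : Measure X) (Φ : G →* Equiv.Perm X) (F : X → ℂ) : Prop :=
  (Measurable[mX] F ∧ ∃ C : ℝ, ∀ x, ‖F x‖ ≤ C) ∧
    (∃ r : G, Measurable[𝒜.comap (Φ r : X → X)] F) ∧
    ∃ s : G, μ[F | 𝒜.comap (Φ s : X → X)] =ᵐ[μ] μ[F | 𝒴]

/-- `f` is a uniform limit (almost everywhere) of functions with finite memory relative to `𝒴`. -/
def Approximable {X : Type w} {G : Type v} [Group G] (𝒜 𝒴 : MeasurableSpace X)
    [MeasurableSpace X] (μ : Measure X) (Φ : G →* Equiv.Perm X) (f : X → ℂ) : Prop :=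
  ∀ ε : ℝ, 0 < ε → ∃ F : X → ℂ, FiniteMemory 𝒜 𝒴 μ Φ F ∧ ∀ᵐ x ∂μ, ‖f x - F x‖ ≤ ε

/-- The averages of every bounded measurable function along the maps `S m` converge almost
everywhere as all sides of the box tend to infinity. -/
def SingleAveragesConverge {k : ℕ} {X : Type w} [MeasurableSpace X] (μ : Measure X)
    (S : (Fin k → ℕ) → X → X) : Prop :=
  ∀ g : X → ℂ, Measurable g → (∃ C : ℝ, ∀ x, ‖g x‖ ≤ C) →
    ∀ᵐ x ∂μ, ∃ L : ℂ, Tendsto (fun M => boxAvg M fun m => g (S m x)) atTop (𝓝 L)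

/-- Let `X` be a Kolmogorov extension of its factor `𝒴` in the direction of the homomorphism
`ℓ : G → ℝ`, let `T_1, …, T_d ∈ G`, let `P_ij ∈ ℤ[m_1, …, m_k]` (`1 ≤ i ≤ d`, `1 ≤ j ≤ n`, `k ≥ 1`)
be such that each `Λ_j = ∑_i ℓ(T_i) P_ij ∈ ℝ[m_1, …, m_k]` depends on every variable and
`Λ_i - Λ_j` is not constant for `i ≠ j`. Let `f_j ∈ L^∞(X)`, and suppose for each `j` that `f_j` is
approximable or that the averages of single functions along `S_j(m) = T_1^(P_1j(m)) ⋯ T_d^(P_dj(m))`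
converge almost everywhere. Then for almost every `x` the averages over the boxes
`[0, M_1) × ⋯ × [0, M_k)` of `∏_j f_j (S_j(m) x)` and of `∏_j E(f_j | 𝒴) (S_j(m) x)` have
difference tending to zero as `min M_l → ∞` (unrestricted boxes). -/
theorem result (n d k : ℕ) (hk : 0 < k) {X : Type w} {G : Type v} [Group G]
    (𝒜 𝒴 : MeasurableSpace X) [mX : MeasurableSpace X] (μ : Measure X) [IsProbabilityMeasure μ]
    (Φ : G →* Equiv.Perm X) (hΦ : ∀ g, MeasurePreserving (Φ g) μ μ)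
    (ℓ : G → ℝ) (hℓ : ∀ g h, ℓ (g * h) = ℓ g + ℓ h)
    (h𝒜 : 𝒜 ≤ mX) (h𝒴 : 𝒴 ≤ 𝒜) (hinv : ∀ g, Measurable[𝒴, 𝒴] (Φ g : X → X))
    (hmono : ∀ g, ℓ g ≤ 0 → 𝒜.comap (Φ g : X → X) ≤ 𝒜)
    (hgen : ∀ B, MeasurableSet[mX] B →
      ∃ B', MeasurableSet[⨆ g, 𝒜.comap (Φ g : X → X)] B' ∧ B =ᵐ[μ] B')
    (htail : ∀ B, (∀ g, MeasurableSet[𝒜.comap (Φ g : X → X)] B) →
      ∃ B', MeasurableSet[𝒴] B' ∧ B =ᵐ[μ] B')
    (T : Fin d → G) (P : Fin d → Fin n → MvPolynomial (Fin k) ℤ)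
    (hdep : ∀ j l, (level (fun i => ℓ (T i)) fun i => P i j).degreeOf l ≠ 0)
    (hne : ∀ i j, i ≠ j → (level (fun r => ℓ (T r)) (fun r => P r i) -
      level (fun r => ℓ (T r)) (fun r => P r j)).totalDegree ≠ 0)
    (f : Fin n → X → ℂ) (hf : ∀ j, MemLp (f j) ∞ μ)
    (hreg : ∀ j, Approximable 𝒜 𝒴 μ Φ (f j) ∨
      SingleAveragesConverge μ fun m => (Φ (word T (fun i => P i j) m) : X → X)) :
    ∀ᵐ x ∂μ, Tendsto (fun M => boxAvg M fun m => (∏ j, f j (Φ (word T (fun i => P i j) m) x) -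
      ∏ j, (μ[f j | 𝒴]) (Φ (word T (fun i => P i j) m) x))) atTop (𝓝 0) :=
  Pool.Agent.H69N.KP.ext_poly ⟨hΦ, ⟨hℓ, h𝒜, hmono⟩, ⟨h𝒴, hinv⟩, hgen, htail⟩ T P hk hdep hne hf
    fun j => (hreg j).imp (fun h => h) fun h => Pool.Agent.H69N.KP.good1_of h

end Pool.Agent.Results.MP_f720ae_an.PolynomialExtensions
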